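import Pool.Agent.Helper55.CF.Goals

open MeasureTheory Complex
open scoped ContDiff ComplexConjugate

noncomputable section
namespace CF55
namespace XI38

/-- coordinates of the chart vector -/
def cc (i : Fin 6) (p : E) : ℂ := (![1, p.1, p.2.1, p.2.2 0, p.2.2 1, p.2.2 2] : Fin 6 → ℂ) i

def dc : Fin 6 → (E →L[ℝ] ℂ) :=
  ![0, ContinuousLinearMap.fst ℝ ℂ (ℂ × Z),
    (ContinuousLinearMap.fst ℝ ℂ Z).comp (ContinuousLinearMap.snd ℝ ℂ (ℂ × Z)),
    (ContinuousLinearMap.proj (R := ℝ) (φ := fun _ : Fin 3 => ℂ) 0).comp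
      ((ContinuousLinearMap.snd ℝ ℂ Z).comp (ContinuousLinearMap.snd ℝ ℂ (ℂ × Z))),
    (ContinuousLinearMap.proj (R := ℝ) (φ := fun _ : Fin 3 => ℂ) 1).comp
      ((ContinuousLinearMap.snd ℝ ℂ Z).comp (ContinuousLinearMap.snd ℝ ℂ (ℂ × Z))),
    (ContinuousLinearMap.proj (R := ℝ) (φ := fun _ : Fin 3 => ℂ) 2).comp
      ((ContinuousLinearMap.snd ℝ ℂ Z).comp (ContinuousLinearMap.snd ℝ ℂ (ℂ × Z)))]

theorem cc_eq (i : Fin 6) (p : E) : cc i p = cc i 0 + dc i p := by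
  fin_cases i <;> simp [cc, dc]

theorem hasFDeriv_cc (i : Fin 6) : HasFDerivAt (cc i) (dc i) 0 := by
  have h : cc i = fun p => cc i 0 + dc i p := by
    funext p; exact cc_eq i p
  rw [h]
  exact (dc i).hasFDerivAt.const_add _

theorem contDiff_cc (i : Fin 6) : ContDiff ℝ ∞ (cc i) := by
  have h : cc i = fun p => cc i 0 + dc i p := by
    funext p; exact cc_eq i p
  rw [h]
  exact contDiff_const.add (dc i).contDiff

theorem chartVec_eq (e : Fin 6 → V) (p : E) : chartVec e p = ∑ i, cc i p • e i := by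
  simp [chartVec, Fin.sum_univ_six, cc]

theorem T_eq (T : Tri) (e : Fin 6 → V) (a : V) (p : E) :
    T (chartVec e p) (chartVec e p) a = ∑ i, ∑ j, (cc i p * cc j p) * T (e i) (e j) a := by
  rw [chartVec_eq]
  simp only [map_sum, LinearMap.sum_apply, map_smul, LinearMap.smul_apply, smul_eq_mul,
    Finset.mul_sum]
  rw [Finset.sum_comm]
  refine Finset.sum_congr rfl fun i _ => Finset.sum_congr rfl fun j _ => ?_
  ring

/-- derivative -/
def dT (T : Tri) (e : Fin 6 → V) (a : V) : E →L[ℝ] ℂ :=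
  ∑ i, ∑ j, (T (e i) (e j) a) • (cc i 0 • dc j + cc j 0 • dc i)

theorem hasFDeriv_T (T : Tri) (e : Fin 6 → V) (a : V) :
    HasFDerivAt (fun p => T (chartVec e p) (chartVec e p) a) (dT T e a) 0 := by
  have h : (fun p => T (chartVec e p) (chartVec e p) a) =
      fun p => ∑ i, ∑ j, (cc i p * cc j p) * T (e i) (e j) a := by
    funext p; exact T_eq T e a p
  rw [h]
  unfold dT
  refine HasFDerivAt.fun_sum fun i _ => HasFDerivAt.fun_sum fun j _ => ?_
  exact ((hasFDeriv_cc i).mul (hasFDeriv_cc j)).mul_const _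

theorem contDiff_T (T : Tri) (e : Fin 6 → V) (a : V) :
    ContDiff ℝ ∞ (fun p => T (chartVec e p) (chartVec e p) a) := by
  have h : (fun p => T (chartVec e p) (chartVec e p) a) =
      fun p => ∑ i, ∑ j, (cc i p * cc j p) * T (e i) (e j) a := by
    funext p; exact T_eq T e a p
  rw [h]
  refine ContDiff.sum fun i _ => ContDiff.sum fun j _ => ?_
  exact ((contDiff_cc i).mul (contDiff_cc j)).mul contDiff_const

/-- the map H -/
def HH (T : Tri) (e : Fin 6 → V) (p : E) : E :=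
  (T (chartVec e p) (chartVec e p) (e 1), T (chartVec e p) (chartVec e p) (e 2), p.2.2)

def dH (T : Tri) (e : Fin 6 → V) : E →L[ℝ] E :=
  (dT T e (e 1)).prod ((dT T e (e 2)).prod
    ((ContinuousLinearMap.snd ℝ ℂ Z).comp (ContinuousLinearMap.snd ℝ ℂ (ℂ × Z))))

theorem hasFDeriv_H (T : Tri) (e : Fin 6 → V) : HasFDerivAt (HH T e) (dH T e) 0 := by
  refine (hasFDeriv_T T e (e 1)).prodMk ((hasFDeriv_T T e (e 2)).prodMk ?_)
  exact ((ContinuousLinearMap.snd ℝ ℂ Z).comp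
    (ContinuousLinearMap.snd ℝ ℂ (ℂ × Z))).hasFDerivAt

theorem contDiff_H (T : Tri) (e : Fin 6 → V) : ContDiff ℝ ∞ (HH T e) := by
  refine (contDiff_T T e (e 1)).prodMk ((contDiff_T T e (e 2)).prodMk ?_)
  exact ((ContinuousLinearMap.snd ℝ ℂ Z).comp
    (ContinuousLinearMap.snd ℝ ℂ (ℂ × Z))).contDiff

theorem dH_inj (T : Tri) (e : Fin 6 → V) (hS : Sym T) (h0 : ∀ a, T (e 0) (e 0) (e a) = 0)
    (h1 : T (e 0) (e 1) (e 1) = 0) (h2 : T (e 0) (e 2) (e 2) = 0)
    (h12 : T (e 0) (e 1) (e 2) ≠ 0) : Function.Injective (dH T e) := by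
  rw [injective_iff_map_eq_zero]
  intro p hp
  obtain ⟨x, y, z⟩ := p
  have hz : z = 0 := by
    have := congrArg (fun q : E => q.2.2) hp
    simpa [dH] using this
  subst hz
  have e1 := congrArg (fun q : E => q.1) hp
  have e2 := congrArg (fun q : E => q.2.1) hp
  have k1 : T (e 1) (e 0) (e 1) = 0 := by rw [hS.s12]; exact h1
  have k2 : T (e 2) (e 0) (e 2) = 0 := by rw [hS.s12]; exact h2
  have k3 : T (e 0) (e 2) (e 1) = T (e 0) (e 1) (e 2) := by rw [hS.s23]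
  have k4 : T (e 2) (e 0) (e 1) = T (e 0) (e 1) (e 2) := by rw [hS.s12, hS.s23]
  have k5 : T (e 1) (e 0) (e 2) = T (e 0) (e 1) (e 2) := by rw [hS.s12]
  simp [dH, dT, Fin.sum_univ_six, cc, dc, k1, k2, k3, k4, k5, h0, h1, h2] at e1 e2
  have hy : y = 0 := e1.resolve_left h12
  have hx : x = 0 := e2.resolve_left h12
  simp [hx, hy]

end XI38

theorem stmtXI : G_XI := by
  intro T e hS h0 h1 h2 h12
  have hinj := XI38.dH_inj T e hS h0 h1 h2 h12
  let L0 : E ≃ₗ[ℝ] E := LinearEquiv.ofInjectiveEndo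
    ((XI38.dH T e : E →L[ℝ] E) : E →ₗ[ℝ] E) hinj
  let L : E ≃L[ℝ] E := L0.toContinuousLinearEquiv
  have hL : (L : E →L[ℝ] E) = XI38.dH T e := by
    ext p <;> rfl
  have hf' : HasFDerivAt (XI38.HH T e) (L : E →L[ℝ] E) 0 := by
    rw [hL]; exact XI38.hasFDeriv_H T e
  have hf : ContDiffAt ℝ ∞ (XI38.HH T e) 0 := (XI38.contDiff_H T e).contDiffAt
  have hn : (∞ : WithTop ℕ∞) ≠ 0 := by simp
  have hH0 : XI38.HH T e 0 = 0 := by
    simp [XI38.HH, chartVec, h0]
  let Ψ := hf.localInverse hf' hn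
  have hΨ : ContDiffAt ℝ ∞ Ψ (XI38.HH T e 0) := hf.to_localInverse hf' hn
  have hΨ0 : Ψ 0 = 0 := by
    have := hf.localInverse_apply_image hf' hn
    rw [hH0] at this; exact this
  have hr : ∀ᶠ q in nhds (XI38.HH T e 0), XI38.HH T e (Ψ q) = q :=
    (hf.hasStrictFDerivAt' hf' hn).eventually_right_inverse
  rw [hH0] at hΨ hr
  let ι : Z → E := fun z => (0, 0, z)
  have hι : ContDiff ℝ ∞ ι := contDiff_const.prodMk (contDiff_const.prodMk contDiff_id)
  have hι0 : ι 0 = 0 := rfl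
  have hΨι : ContDiffAt ℝ ∞ (fun z => Ψ (ι z)) 0 := by
    refine ContDiffAt.comp (0 : Z) ?_ hι.contDiffAt
    rw [hι0]; exact hΨ
  refine ⟨fun z => ((Ψ (ι z)).1, (Ψ (ι z)).2.1), ?_, ?_, ?_⟩
  · exact hΨι.fst.prodMk hΨι.snd.fst
  · simp [hι0, hΨ0]
  · have hr' : ∀ᶠ z : Z in nhds 0, XI38.HH T e (Ψ (ι z)) = ι z := by
      have hc : Filter.Tendsto ι (nhds 0) (nhds 0) := by
        have := hι.continuous.tendsto (0 : Z)
        rwa [hι0] at this
      exact hc.eventually hr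
    filter_upwards [hr'] with z hz
    have h3 : (Ψ (ι z)).2.2 = z := congrArg (fun q : E => q.2.2) hz
    have h4 : Ψ (ι z) = ((Ψ (ι z)).1, (Ψ (ι z)).2.1, z) := by
      ext1
      · rfl
      · ext1
        · rfl
        · exact h3
    have h5 := congrArg (fun q : E => q.1) hz
    have h6 := congrArg (fun q : E => q.2.1) hz
    simp only [XI38.HH] at h5 h6
    rw [h4] at h5 h6
    exact ⟨h5, h6⟩

end CF55
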