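import Pool.Agent.Helper55.CF.Goals2
import Pool.Agent.Helper38.CF.XI

open MeasureTheory Complex
open scoped ContDiff ComplexConjugate

noncomputable section
namespace CF55
namespace XI38

/-- the local inverse of a smooth map is smooth at all nearby points -/
theorem eventually_contDiffAt_localInverse {F G : Type*} [NormedAddCommGroup F] [NormedSpace ℝ F]
    [CompleteSpace F] [NormedAddCommGroup G] [NormedSpace ℝ G] [CompleteSpace G]
    (f : F → G) (a : F)
    (L : F ≃L[ℝ] G) (hf : ContDiff ℝ ∞ f) (hf' : HasFDerivAt f (L : F →L[ℝ] G) a)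
    (hn : (∞ : WithTop ℕ∞) ≠ 0) :
    ∀ᶠ q in nhds (f a), ContDiffAt ℝ ∞ (hf.contDiffAt.localInverse hf' hn) q := by
  let P := hf.contDiffAt.toOpenPartialHomeomorph f hf' hn
  have hPc : (P : F → G) = f := hf.contDiffAt.toOpenPartialHomeomorph_coe hf' hn
  have ht : P.target ∈ nhds (f a) :=
    P.open_target.mem_nhds (hf.contDiffAt.image_mem_toOpenPartialHomeomorph_target hf' hn)
  have hsymm : P.symm (f a) = a := hf.contDiffAt.localInverse_apply_image hf' hn
  have hcont : Filter.Tendsto P.symm (nhds (f a)) (nhds a) := by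
    have := P.continuousAt_symm (hf.contDiffAt.image_mem_toOpenPartialHomeomorph_target hf' hn)
    rw [ContinuousAt, hsymm] at this
    exact this
  have hU : ∀ᶠ x in nhds a, ∃ M : F ≃L[ℝ] G, (M : F →L[ℝ] G) = fderiv ℝ f x := by
    have h1 := ContinuousLinearEquiv.nhds L
    have h2 : ContinuousAt (fderiv ℝ f) a := (hf.continuous_fderiv (by simp)).continuousAt
    have h3 : fderiv ℝ f a = L := hf'.fderiv
    rw [← h3] at h1
    exact h2.eventually h1
  filter_upwards [ht, hcont.eventually hU] with q hq hM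
  obtain ⟨M, hM⟩ := hM
  refine P.contDiffAt_symm hq (f₀' := M) ?_ ?_
  · rw [hPc, hM]
    exact (hf.differentiable (by simp)).differentiableAt.hasFDerivAt
  · rw [hPc]; exact hf.contDiffAt

end XI38

theorem stmtXI2 : G_XI2 := by
  intro T e hS h0 h1 h2 h12
  have hinj := XI38.dH_inj T e hS h0 h1 h2 h12
  let L0 : E ≃ₗ[ℝ] E := LinearEquiv.ofInjectiveEndo
    ((XI38.dH T e : E →L[ℝ] E) : E →ₗ[ℝ] E) hinj
  let L : E ≃L[ℝ] E := L0.toContinuousLinearEquiv
  have hL : (L : E →L[ℝ] E) = XI38.dH T e := by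
    ext p <;> rfl
  have hf' : HasFDerivAt (XI38.HH T e) (L : E →L[ℝ] E) 0 := by
    rw [hL]; exact XI38.hasFDeriv_H T e
  have hf : ContDiffAt ℝ ∞ (XI38.HH T e) 0 := (XI38.contDiff_H T e).contDiffAt
  have hn : (∞ : WithTop ℕ∞) ≠ 0 := by simp
  have hH0 : XI38.HH T e 0 = 0 := by
    simp [XI38.HH, chartVec, h0]
  let Ψ := hf.localInverse hf' hn
  have hΨ : ∀ᶠ q in nhds (XI38.HH T e 0), ContDiffAt ℝ ∞ Ψ q :=
    XI38.eventually_contDiffAt_localInverse _ _ L (XI38.contDiff_H T e) hf' hn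
  have hΨ0 : Ψ 0 = 0 := by
    have := hf.localInverse_apply_image hf' hn
    rw [hH0] at this; exact this
  have hr : ∀ᶠ q in nhds (XI38.HH T e 0), XI38.HH T e (Ψ q) = q :=
    (hf.hasStrictFDerivAt' hf' hn).eventually_right_inverse
  rw [hH0] at hΨ hr
  let ι : Z → E := fun z => (0, 0, z)
  have hι : ContDiff ℝ ∞ ι := contDiff_const.prodMk (contDiff_const.prodMk contDiff_id)
  have hι0 : ι 0 = 0 := rfl
  have hc : Filter.Tendsto ι (nhds 0) (nhds 0) := by
    have := hι.continuous.tendsto (0 : Z)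
    rwa [hι0] at this
  refine ⟨fun z => ((Ψ (ι z)).1, (Ψ (ι z)).2.1), ?_, ?_, ?_⟩
  · filter_upwards [hc.eventually hΨ] with z hz
    have hΨι : ContDiffAt ℝ ∞ (fun z => Ψ (ι z)) z := ContDiffAt.comp z hz hι.contDiffAt
    exact hΨι.fst.prodMk hΨι.snd.fst
  · simp [hι0, hΨ0]
  · have hr' : ∀ᶠ z : Z in nhds 0, XI38.HH T e (Ψ (ι z)) = ι z := hc.eventually hr
    filter_upwards [hr'] with z hz
    have h3 : (Ψ (ι z)).2.2 = z := congrArg (fun q : E => q.2.2) hz
    have h4 : Ψ (ι z) = ((Ψ (ι z)).1, (Ψ (ι z)).2.1, z) := by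
      ext1
      · rfl
      · ext1
        · rfl
        · exact h3
    have h5 := congrArg (fun q : E => q.1) hz
    have h6 := congrArg (fun q : E => q.2.1) hz
    simp only [XI38.HH] at h5 h6
    rw [h4] at h5 h6
    exact ⟨h5, h6⟩

end CF55
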